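import Pool.Agent.H30.EE.TargetsG
import Pool.Agent.H17.EE.XM

/-!
# RG4: vector fields on a rational normal curve (MP_70ba79_ag)
-/

set_option autoImplicit false

namespace Pool.Agent.H48.EE.RG4

open MvPolynomial SC Pool.Agent.H27.LV Pool.Agent.H17.VG Pool.Agent.H30.EE

/-- coefficients -/
theorem coeff_P {K : Type} [Field K] {r : ℕ} (g : Fin (r + 1) → K) (m : ℕ) :
    (∑ j : Fin (r + 1), Polynomial.X ^ (j : ℕ) * Polynomial.C (g j)).coeff m =
      if h : m < r + 1 then g ⟨m, h⟩ else 0 := by
  rw [Polynomial.finsetSum_coeff]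
  simp only [Polynomial.coeff_mul_C, Polynomial.coeff_X_pow, ite_mul, one_mul, zero_mul]
  split_ifs with h
  · rw [Finset.sum_eq_single ⟨m, h⟩]
    · rw [if_pos rfl]
    · intro j _ hj
      rw [if_neg]
      intro h1
      exact hj (Fin.ext h1.symm)
    · intro h1
      exact absurd (Finset.mem_univ _) h1
  · refine Finset.sum_eq_zero fun j _ => ?_
    rw [if_neg]
    intro h1
    exact h (h1 ▸ j.2)

/-- the algebra of the relations -/
theorem alg {K : Type} [Field K] [CharZero K] {r d : ℕ} (hr : 1 ≤ r) (hd : 1 ≤ d)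
    (c : Fin (r + 1) → ℕ → K) (hc0 : ∀ u, c 0 u = 0)
    (hc : ∃ (j : Fin (r + 1)) (u : ℕ), u ≤ r ∧ c j u ≠ 0) (P : ℕ → Polynomial K)
    (hP : ∀ u, P u = ∑ j : Fin (r + 1), Polynomial.X ^ (j : ℕ) * Polynomial.C (c j u))
    (hrel : ∀ u, u + 2 ≤ r → P 0 * Polynomial.X ^ (u + 2) + P (u + 2) =
      P 1 * Polynomial.X ^ (u + 1) + Polynomial.X * P (u + 1))
    (R : Fin (r + 1) → Polynomial K) (f : Polynomial K)
    (hE : Polynomial.C (d : K) * f = ∑ l : Fin (r + 1), Polynomial.X ^ (l : ℕ) * R l)
    (hD : Polynomial.X * f.derivative =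
      ∑ l : Fin (r + 1), Polynomial.X ^ (l : ℕ) * (Polynomial.C ((l : ℕ) : K) * R l))
    (h0 : ∑ l : Fin (r + 1), P l * R l = 0) (hf : f.coeff 0 ≠ 0) :
    ∃ β : K, f = Polynomial.C (f.coeff 0) * (1 + Polynomial.C β * Polynomial.X) ^ (r * d) := by
  have hcoe : ∀ u m, (P u).coeff m = if h : m < r + 1 then c ⟨m, h⟩ u else 0 := by
    intro u m
    rw [hP, coeff_P]
  have hbig : ∀ u m, r < m → (P u).coeff m = 0 := by
    intro u m hm
    rw [hcoe, dif_neg (by omega)]
  have hz : ∀ u, (P u).coeff 0 = 0 := by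
    intro u
    rw [hcoe, dif_pos (by omega)]
    exact hc0 u
  obtain ⟨be, hbe⟩ : ∃ be, be = P 1 - Polynomial.X * P 0 := ⟨_, rfl⟩
  have hP1 : P 1 = Polynomial.X * P 0 + be := by rw [hbe]; ring
  -- all `P u`
  have hall : ∀ u, u + 1 ≤ r → P (u + 1) = Polynomial.X ^ (u + 1) * P 0 +
      Polynomial.C ((u : K) + 1) * Polynomial.X ^ u * be := by
    intro u
    induction u with
    | zero =>
      intro _
      rw [zero_add, hP1]
      simp
    | succ u ih =>
      intro hu
      have h1 := hrel u (by omega)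
      have h2 : P (u + 2) = P 1 * Polynomial.X ^ (u + 1) + Polynomial.X * P (u + 1) -
          P 0 * Polynomial.X ^ (u + 2) := by rw [← h1]; ring
      rw [show u + 1 + 1 = u + 2 from rfl, h2, ih (by omega), hP1]
      push_cast
      simp only [map_add, map_one]
      ring
  have hX : ∀ u, u ≤ r → Polynomial.X * P u = Polynomial.X ^ (u + 1) * P 0 +
      Polynomial.C (u : K) * Polynomial.X ^ u * be := by
    intro u hu
    rcases u with _ | u
    · simp
    · rw [hall u hu]
      push_cast
      ring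
  -- the coefficients
  have hcX : ∀ (m : ℕ) (Q : Polynomial K) (k : ℕ), (Polynomial.X ^ m * Q).coeff (k + m) =
      Q.coeff k := fun m Q k => Polynomial.coeff_X_pow_mul Q m k
  have hA : ∀ t, 1 ≤ t → (P 0).coeff t + (r : K) * be.coeff (t + 1) = 0 := by
    intro t ht
    have h1 := congrArg (fun Q : Polynomial K => Q.coeff (t + (r + 1))) (hX r le_rfl)
    simp only [Polynomial.coeff_add] at h1
    rw [hcX (r + 1) (P 0) t, mul_assoc, Polynomial.coeff_C_mul,
      show t + (r + 1) = (t + 1) + r by ring, hcX r be (t + 1),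
      show t + 1 + r = (t + r) + 1 by ring, Polynomial.coeff_X_mul, hbig r (t + r) (by omega)] at h1
    exact h1.symm
  have hB : ∀ t, 2 ≤ t → (P 0).coeff t + ((r : K) - 1) * be.coeff (t + 1) = 0 := by
    intro t ht
    have h1 := congrArg (fun Q : Polynomial K => Q.coeff (t + r)) (hX (r - 1) (by omega))
    simp only [Polynomial.coeff_add] at h1
    rw [show r - 1 + 1 = r by omega, hcX r (P 0) t, mul_assoc, Polynomial.coeff_C_mul,
      show t + r = (t + 1) + (r - 1) by omega, hcX (r - 1) be (t + 1),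
      show t + 1 + (r - 1) = (t + r - 1) + 1 by omega, Polynomial.coeff_X_mul,
      hbig (r - 1) (t + r - 1) (by omega), Nat.cast_sub hr, Nat.cast_one] at h1
    exact h1.symm
  have hbe3 : ∀ t, 3 ≤ t → be.coeff t = 0 := by
    intro t ht
    obtain ⟨s, rfl⟩ : ∃ s, t = s + 1 := ⟨t - 1, by omega⟩
    have h1 := hA s (by omega)
    have h2 := hB s (by omega)
    linear_combination h1 - h2
  have hA2 : ∀ t, 2 ≤ t → (P 0).coeff t = 0 := by
    intro t ht
    have h1 := hA t (by omega)
    rw [hbe3 (t + 1) (by omega), mul_zero, add_zero] at h1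
    exact h1
  have hbe0 : be.coeff 0 = 0 := by
    rw [hbe, Polynomial.coeff_sub, hz 1, Polynomial.coeff_X_mul_zero, sub_zero]
  obtain ⟨b1, hb1⟩ : ∃ b1, b1 = be.coeff 1 := ⟨_, rfl⟩
  obtain ⟨b2, hb2⟩ : ∃ b2, b2 = be.coeff 2 := ⟨_, rfl⟩
  have hbeq : be = Polynomial.C b1 * Polynomial.X + Polynomial.C b2 * Polynomial.X ^ 2 := by
    ext t
    rw [Polynomial.coeff_add, Polynomial.coeff_C_mul, Polynomial.coeff_C_mul, Polynomial.coeff_X,
      Polynomial.coeff_X_pow]
    rcases t with _ | _ | _ | t
    · rw [hbe0]; simp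
    · simp [hb1]
    · simp [hb2]
    · rw [hbe3 _ (by omega)]
      simp
  have hP0 : P 0 = Polynomial.C (-(r : K) * b2) * Polynomial.X := by
    ext t
    rw [Polynomial.coeff_C_mul, Polynomial.coeff_X]
    rcases t with _ | _ | t
    · rw [hz]; simp
    · have h1 := hA 1 le_rfl
      rw [← hb2] at h1
      simp only [zero_add, if_true, mul_one]
      linear_combination h1
    · rw [hA2 _ (by omega)]
      simp
  -- the equation
  have hX0 : (Polynomial.X : Polynomial K) ≠ 0 := Polynomial.X_ne_zero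
  have hmain : Polynomial.X * P 0 * (Polynomial.C (d : K) * f) +
      be * (Polynomial.X * f.derivative) = 0 := by
    have h1 : Polynomial.X * ∑ l : Fin (r + 1), P l * R l = 0 := by rw [h0, mul_zero]
    rw [hE, hD, ← h1, Finset.mul_sum, Finset.mul_sum, Finset.mul_sum, ← Finset.sum_add_distrib]
    refine Finset.sum_congr rfl fun l _ => ?_
    have h2 := hX l (by omega)
    rw [← mul_assoc Polynomial.X (P l) (R l), h2]
    ring
  have hode : (Polynomial.C b1 + Polynomial.C b2 * Polynomial.X) * f.derivative =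
      Polynomial.C ((r : K) * d * b2) * f := by
    apply mul_left_cancel₀ (pow_ne_zero 2 hX0)
    rw [hP0, hbeq] at hmain
    have h3 : (Polynomial.C ((r : K) * d * b2) : Polynomial K) =
        - (Polynomial.C (-(r : K) * b2) * Polynomial.C (d : K)) := by
      rw [← Polynomial.C_mul, ← Polynomial.C_neg]
      congr 1
      ring
    rw [h3]
    linear_combination hmain
  -- `b1 ≠ 0`
  have hr0 : (r : K) ≠ 0 := by exact_mod_cast (by omega : r ≠ 0)
  have hd0 : (d : K) ≠ 0 := by exact_mod_cast (by omega : d ≠ 0)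
  have hb1ne : b1 ≠ 0 := by
    intro hb
    have h1 := congrArg (fun Q : Polynomial K => Q.coeff 0) hode
    beta_reduce at h1
    rw [hb, map_zero, zero_add, mul_assoc, Polynomial.coeff_C_mul, Polynomial.coeff_X_mul_zero,
      mul_zero, Polynomial.coeff_C_mul] at h1
    have h2 : b2 = 0 := by
      by_contra hne
      exact mul_ne_zero (mul_ne_zero (mul_ne_zero hr0 hd0) hne) hf h1.symm
    obtain ⟨j, u, hu, hju⟩ := hc
    apply hju
    have h3 := hX u hu
    rw [hP0, hbeq, hb, h2] at h3
    have h4 : Polynomial.X * P u = 0 := by rw [h3]; simp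
    have h5 : P u = 0 := (mul_eq_zero.1 h4).resolve_left hX0
    have h6 := hcoe u j
    rw [h5, dif_pos j.2] at h6
    simpa using h6.symm
  -- the solution
  obtain ⟨β, hβ⟩ : ∃ β, β = b2 / b1 := ⟨_, rfl⟩
  have hrec : ∀ m : ℕ, ((m : K) + 1) * f.coeff (m + 1) = β * ((r : K) * d - m) * f.coeff m := by
    intro m
    have h1 := congrArg (fun Q : Polynomial K => Q.coeff m) hode
    beta_reduce at h1
    rw [add_mul, Polynomial.coeff_add, Polynomial.coeff_C_mul, mul_assoc, Polynomial.coeff_C_mul,
      Polynomial.coeff_C_mul, Polynomial.coeff_derivative] at h1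
    have h2 : (Polynomial.X * f.derivative).coeff m = (m : K) * f.coeff m := by
      rcases m with _ | m
      · simp
      · rw [Polynomial.coeff_X_mul, Polynomial.coeff_derivative]
        push_cast
        ring
    rw [h2] at h1
    rw [hβ]
    field_simp
    linear_combination h1
  refine ⟨β, ?_⟩
  ext m
  rw [Polynomial.coeff_C_mul]
  have hg : ∀ m : ℕ, ((1 + Polynomial.C β * Polynomial.X) ^ (r * d) : Polynomial K).coeff m =
      β ^ m * ((r * d).choose m : K) := by
    intro m
    have h1 : (1 + Polynomial.C β * Polynomial.X : Polynomial K) =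
        ((1 + Polynomial.X : Polynomial K)).comp (Polynomial.C β * Polynomial.X) := by
      simp
    rw [h1, ← Polynomial.pow_comp, Polynomial.comp_C_mul_X_coeff,
      Polynomial.coeff_one_add_X_pow]
    ring
  rw [hg]
  induction m with
  | zero => simp
  | succ m ih =>
    have h1 := hrec m
    rw [ih] at h1
    have hm : ((m : K) + 1) ≠ 0 := by exact_mod_cast Nat.succ_ne_zero m
    apply mul_left_cancel₀ hm
    rw [h1]
    have h2 : ((m : K) + 1) * ((r * d).choose (m + 1) : K) =
        ((r : K) * d - m) * ((r * d).choose m : K) := by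
      have h3 := Nat.choose_succ_right_eq (r * d) m
      by_cases hle : m ≤ r * d
      · have h4 := congrArg (fun x : ℕ => (x : K)) h3
        simp only [Nat.cast_mul, Nat.cast_add, Nat.cast_one, Nat.cast_sub hle] at h4
        linear_combination h4
      · rw [Nat.choose_eq_zero_of_lt (by omega : r * d < m),
          Nat.choose_eq_zero_of_lt (by omega : r * d < m + 1)]
        simp
    rw [pow_succ]
    linear_combination (-(f.coeff 0 * β ^ m * β)) * h2

section geo

variable {K : Type} [Field K] {n r : ℕ}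

/-- a linear form -/
noncomputable def xi (w : Fin (n + 1) → K) : MvPolynomial (Fin (n + 1)) K := ∑ i, C (w i) * X i

theorem xi_homog (w : Fin (n + 1) → K) : (xi w).IsHomogeneous 1 := by
  refine IsHomogeneous.sum _ _ _ fun i _ => ?_
  have h := (isHomogeneous_C (Fin (n + 1)) (w i)).mul (isHomogeneous_X K i)
  simpa using h

theorem resC_xi (z : Fin (r + 1) → Fin (n + 1) → K) (w : Fin (n + 1) → K) :
    resC z (xi w) = ∑ j : Fin (r + 1), Polynomial.X ^ (j : ℕ) *
      Polynomial.C (∑ i, z j i * w i) := by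
  have h1 : resC z (xi w) = ∑ i, Polynomial.C (w i) *
      ∑ j : Fin (r + 1), Polynomial.C (z j i) * Polynomial.X ^ (j : ℕ) := by
    change Pool.Agent.H17.EE.resC z (xi w) = _
    rw [xi, Pool.Agent.H17.EE.resC_sum]
    exact Finset.sum_congr rfl fun i _ => by
      rw [Pool.Agent.H17.EE.resC_mul, Pool.Agent.H17.EE.resC_C, Pool.Agent.H17.EE.resC_X]
  rw [h1]
  simp only [Finset.mul_sum, map_sum, map_mul]
  rw [Finset.sum_comm]
  exact Finset.sum_congr rfl fun j _ => Finset.sum_congr rfl fun i _ => by ring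

theorem pderiv_xi (w : Fin (n + 1) → K) (i : Fin (n + 1)) : pderiv i (xi w) = C (w i) := by
  classical
  rw [xi, map_sum, Finset.sum_eq_single i]
  · rw [pderiv_mul, pderiv_C, zero_mul, pderiv_X_self, mul_one, zero_add]
  · intro j _ hj
    rw [pderiv_mul, pderiv_C, zero_mul, pderiv_X_of_ne hj, mul_zero, zero_add]
  · intro h
    exact absurd (Finset.mem_univ i) h

theorem dir_xi (v w : Fin (n + 1) → K) : dir v (xi w) = C (∑ i, v i * w i) := by
  unfold dir
  rw [map_sum]
  exact Finset.sum_congr rfl fun i _ => by rw [pderiv_xi, ← C_mul]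

theorem dA_xi (z a : Fin (r + 1) → Fin (n + 1) → K) (w : Fin (n + 1) → K) :
    dA z a (xi w) = ∑ j : Fin (r + 1), Polynomial.X ^ (j : ℕ) *
      Polynomial.C (∑ i, a j i * w i) := by
  unfold dA
  refine Finset.sum_congr rfl fun j _ => ?_
  rw [dir_xi]
  congr 1
  exact Pool.Agent.H17.EE.resC_C z _

theorem dir_comb {ι : Type} [Fintype ι] (c : ι → K) (z : ι → Fin (n + 1) → K)
    (G : MvPolynomial (Fin (n + 1)) K) :
    dir (∑ l, c l • z l) G = ∑ l, C (c l) * dir (z l) G := by
  unfold dir
  simp only [Finset.sum_apply, Pi.smul_apply, smul_eq_mul, map_sum, map_mul, Finset.sum_mul,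
    Finset.mul_sum]
  rw [Finset.sum_comm]
  exact Finset.sum_congr rfl fun l _ => Finset.sum_congr rfl fun i _ => by ring

end geo

end Pool.Agent.H48.EE.RG4

namespace Pool.Agent.H48.EE

open MvPolynomial SC Pool.Agent.H27.LV Pool.Agent.H17.VG Pool.Agent.H30.EE
open Pool.Agent.H48.EE.RG4

theorem pf_RG4 (hRG0 : T_RG0) : T_RG4 := by
  intro K _ _ n d r F z a hr hd hF hz ha ha0 hspan hI hFA hF0
  obtain ⟨W, hW⟩ := Pool.Agent.H17.EE.exists_leftInv hz
  -- coordinates of the `a j`
  have hex : ∀ j, ∃ c : Fin (r + 1) → K, ∑ l, c l • z l = a j := fun j =>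
    (Submodule.mem_span_range_iff_exists_fun K).1 (hspan j)
  choose e he using hex
  let W' : ℕ → Fin (n + 1) → K := fun u i => if h : u < r + 1 then W i ⟨u, h⟩ else 0
  have hW' : ∀ (u : ℕ) (h : u < r + 1), W' u = fun i => W i ⟨u, h⟩ := by
    intro u h
    funext i
    exact dif_pos h
  let c : Fin (r + 1) → ℕ → K := fun j u => ∑ i, a j i * W' u i
  have hce : ∀ j (u : Fin (r + 1)), c j u = e j u := by
    intro j u
    change ∑ i, a j i * W' u i = e j u
    rw [hW' u u.2, ← he j]
    simp only [Finset.sum_apply, Pi.smul_apply, smul_eq_mul, Finset.sum_mul]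
    rw [Finset.sum_comm]
    have h1 : ∀ l, ∑ i, e j l * z l i * W i ⟨u, u.2⟩ = e j l * if l = u then 1 else 0 := by
      intro l
      rw [← hW l u, Finset.mul_sum]
      exact Finset.sum_congr rfl fun i _ => by ring
    rw [Finset.sum_congr rfl fun l _ => h1 l]
    simp
  let P : ℕ → Polynomial K := fun u =>
    ∑ j : Fin (r + 1), Polynomial.X ^ (j : ℕ) * Polynomial.C (c j u)
  have hPd : ∀ u, dA z a (xi (W' u)) = P u := fun u => dA_xi z a (W' u)
  have hres : ∀ u, u ≤ r → resC z (xi (W' u)) = Polynomial.X ^ u := by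
    intro u hu
    rw [resC_xi, hW' u (by omega)]
    simp only [hW]
    rw [Finset.sum_eq_single ⟨u, by omega⟩]
    · rw [if_pos rfl, map_one, mul_one]
    · intro j _ hj
      rw [if_neg hj, map_zero, mul_zero]
    · intro h
      exact absurd (Finset.mem_univ _) h
  have hadd := fun G G' : MvPolynomial (Fin (n + 1)) K => (hRG0 K K n r z a G G').1
  have hsm := fun G : MvPolynomial (Fin (n + 1)) K => (hRG0 K K n r z a G G).2.1
  have hmul := fun G G' : MvPolynomial (Fin (n + 1)) K => (hRG0 K K n r z a G G').2.2.1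
  have hrel : ∀ u, u + 2 ≤ r → P 0 * Polynomial.X ^ (u + 2) + P (u + 2) =
      P 1 * Polynomial.X ^ (u + 1) + Polynomial.X * P (u + 1) := by
    intro u hu
    have hq : xi (W' 0) * xi (W' (u + 2)) + (-1 : K) • (xi (W' 1) * xi (W' (u + 1))) ∈
        Iz 2 z := by
      refine ⟨?_, ?_⟩
      · have h1 := (xi_homog (W' 0)).mul (xi_homog (W' (u + 2)))
        have h2 := (xi_homog (W' 1)).mul (xi_homog (W' (u + 1)))
        exact Submodule.add_mem (homogeneousSubmodule (Fin (n + 1)) K 2) h1
          (Submodule.smul_mem _ _ h2)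
      · have h3 : resL z (xi (W' 0) * xi (W' (u + 2)) +
            (-1 : K) • (xi (W' 1) * xi (W' (u + 1)))) = 0 := by
          rw [map_add, map_smul]
          change resC z (xi (W' 0) * xi (W' (u + 2))) +
            (-1 : K) • resC z (xi (W' 1) * xi (W' (u + 1))) = 0
          have h4 : ∀ G G' : MvPolynomial (Fin (n + 1)) K,
              resC z (G * G') = resC z G * resC z G' := Pool.Agent.H17.EE.resC_mul z
          rw [h4, h4, hres 0 (by omega), hres (u + 2) hu, hres 1 hr, hres (u + 1) (by omega),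
            neg_one_smul]
          ring
        exact h3
    have h5 := hI _ hq
    rw [hadd, hsm, hmul, hmul, hPd, hPd, hPd, hPd, hres 0 (by omega), hres (u + 2) hu, hres 1 hr,
      hres (u + 1) (by omega), neg_one_smul, pow_zero, pow_one, one_mul] at h5
    linear_combination h5
  have hc0 : ∀ u, c 0 u = 0 := by
    intro u
    change ∑ i, a 0 i * W' u i = 0
    rw [ha0]
    simp
  have hcne : ∃ (j : Fin (r + 1)) (u : ℕ), u ≤ r ∧ c j u ≠ 0 := by
    by_contra hcon
    push Not at hcon
    apply ha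
    funext j
    rw [← he j]
    have h1 : ∀ l, e j l = 0 := fun l => by
      rw [← hce j l]
      exact hcon j l (by omega)
    simp [h1]
  have hE := Pool.Agent.H17.EE.euler_resC z hF
  have hD := Pool.Agent.H17.EE.deriv_resC z F
  have hD' : Polynomial.X * (resC z F).derivative = ∑ l : Fin (r + 1),
      Polynomial.X ^ (l : ℕ) * (Polynomial.C ((l : ℕ) : K) * resC z (dir (z l) F)) := by
    change Polynomial.X * (Pool.Agent.H17.EE.resC z F).derivative = _
    rw [hD]
    refine Finset.sum_congr rfl fun l _ => ?_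
    congr 1
    change _ = Polynomial.C ((l : ℕ) : K) * Pool.Agent.H17.EE.resC z (dir (z l) F)
    rw [← Pool.Agent.H17.EE.resC_C z, ← Pool.Agent.H17.EE.resC_mul]
    congr 1
    unfold dir
    rw [Finset.mul_sum]
    exact Finset.sum_congr rfl fun i _ => by rw [map_mul]; ring
  have h0 : ∑ l : Fin (r + 1), P l * resC z (dir (z l) F) = 0 := by
    rw [← hFA]
    unfold dA
    have h1 : ∀ j, resC z (dir (a j) F) =
        ∑ l : Fin (r + 1), Polynomial.C (c j l) * resC z (dir (z l) F) := by
      intro j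
      rw [← he j, dir_comb]
      change Pool.Agent.H17.EE.resC z _ = _
      rw [Pool.Agent.H17.EE.resC_sum]
      refine Finset.sum_congr rfl fun l _ => ?_
      rw [Pool.Agent.H17.EE.resC_mul, Pool.Agent.H17.EE.resC_C, hce j l]
      rfl
    simp only [h1]
    change ∑ l : Fin (r + 1), (∑ j : Fin (r + 1), Polynomial.X ^ (j : ℕ) *
      Polynomial.C (c j l)) * resC z (dir (z l) F) = _
    simp only [Finset.sum_mul, Finset.mul_sum]
    rw [Finset.sum_comm]
    exact Finset.sum_congr rfl fun j _ => Finset.sum_congr rfl fun l _ => by ring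
  have hco : (resC z F).coeff 0 = eval (z 0) F := by
    rw [Polynomial.coeff_zero_eq_eval_zero]
    change (Pool.Agent.H17.EE.resC z F).eval 0 = _
    rw [Pool.Agent.H17.EE.eval_resC]
    refine congrArg (fun x => eval x F) (funext fun i => ?_)
    rw [Finset.sum_eq_single 0]
    · rw [Fin.val_zero, pow_zero, one_mul]
    · intro j _ hj
      rw [zero_pow, zero_mul]
      intro h
      exact hj (Fin.ext (by rw [Fin.val_zero]; exact h))
    · intro h
      exact absurd (Finset.mem_univ _) h
  obtain ⟨β, hβ⟩ := alg hr hd c hc0 hcne P (fun u => rfl) hrel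
    (fun l => resC z (dir (z l) F)) (resC z F) hE hD' h0 (by rw [hco]; exact hF0)
  refine ⟨algebraMap K _ β, 0, r * d, 0, by omega, ?_⟩
  rw [hβ, hco, Polynomial.map_mul, Polynomial.map_pow, Polynomial.map_add, Polynomial.map_mul,
    Polynomial.map_C, Polynomial.map_C, Polynomial.map_X, Polynomial.map_one, pow_zero, mul_one]

end Pool.Agent.H48.EE
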