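import Pool.Agent.H30.EE.TargetsG
import Pool.Agent.H17.EE.XB

/-!
# RMD: restrictions of the forms which vanish at `z 0` (MP_70ba79_ag)
-/

set_option autoImplicit false

namespace Pool.Agent.H48.EE

open MvPolynomial SC Pool.Agent.H27.LV Pool.Agent.H17.VG Pool.Agent.H30.EE

theorem resC_eq {K : Type} [Field K] {n r : ℕ} (z : Fin (r + 1) → Fin (n + 1) → K)
    (G : MvPolynomial (Fin (n + 1)) K) : resC z G = Pool.Agent.H17.EE.resC z G := rfl

theorem resL_apply {K : Type} [Field K] {n r : ℕ} (z : Fin (r + 1) → Fin (n + 1) → K)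
    (G : MvPolynomial (Fin (n + 1)) K) : resL z G = resC z G := rfl

theorem coeff_zero_resC {K : Type} [Field K] {n r : ℕ} (z : Fin (r + 1) → Fin (n + 1) → K)
    (G : MvPolynomial (Fin (n + 1)) K) : (resC z G).coeff 0 = eval (z 0) G := by
  rw [Polynomial.coeff_zero_eq_eval_zero, resC_eq, Pool.Agent.H17.EE.eval_resC]
  congr 1
  refine congrArg eval (funext fun i => ?_)
  rw [Finset.sum_eq_single 0]
  · rw [Fin.val_zero, pow_zero, one_mul]
  · intro j _ hj
    rw [zero_pow, zero_mul]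
    intro h
    exact hj (Fin.ext (by rw [Fin.val_zero]; exact h))
  · intro h
    exact absurd (Finset.mem_univ _) h

theorem mem_Md {K : Type} [Field K] {n a : ℕ} (x : Fin (n + 1) → K)
    (G : MvPolynomial (Fin (n + 1)) K) : G ∈ Md a x ↔ G.IsHomogeneous a ∧ eval x G = 0 :=
  Iff.rfl

theorem mem_Iz {K : Type} [Field K] {n r a : ℕ} (z : Fin (r + 1) → Fin (n + 1) → K)
    (G : MvPolynomial (Fin (n + 1)) K) : G ∈ Iz a z ↔ G.IsHomogeneous a ∧ resC z G = 0 :=
  Iff.rfl

theorem pf_RMD (hQDM : T_QDM) : T_RMD := by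
  intro K _ n r a z hz
  obtain ⟨h1, h2, h3, -⟩ := hQDM K r n a z hz
  refine ⟨fun P => ⟨?_, ?_⟩, ?_, ?_⟩
  · rintro ⟨G, hG, rfl⟩
    rw [resL_apply]
    obtain ⟨hG1, hG2⟩ := (mem_Md (z 0) G).1 hG
    exact ⟨h2 G hG1, by rw [coeff_zero_resC, hG2]⟩
  · rintro ⟨hP1, hP2⟩
    obtain ⟨G, hG1, hG2⟩ := h1 P hP1
    refine ⟨G, (mem_Md (z 0) G).2 ⟨hG1, ?_⟩, hG2⟩
    rw [← coeff_zero_resC, hG2, hP2]
  · have hfin : Module.Finite K (Sd K n a) := by
      apply Module.finite_of_finrank_pos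
      rw [← h3]
      omega
    let ev : MvPolynomial (Fin (n + 1)) K →ₗ[K] K :=
      (aeval (z 0) : MvPolynomial (Fin (n + 1)) K →ₐ[K] K).toLinearMap
    let ev' : Sd K n a →ₗ[K] K := ev ∘ₗ (Sd K n a).subtype
    have hsurj : LinearMap.range ev' = ⊤ := by
      obtain ⟨G, hG1, hG2⟩ := h1 1 (by rw [Polynomial.natDegree_one]; exact Nat.zero_le _)
      have hG3 : ev G = 1 := by
        change eval (z 0) G = 1
        rw [← coeff_zero_resC, hG2, Polynomial.coeff_one_zero]
      rw [LinearMap.range_eq_top]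
      intro c
      refine ⟨c • ⟨G, hG1⟩, ?_⟩
      rw [map_smul]
      change c • ev G = c
      rw [hG3, smul_eq_mul, mul_one]
    have hk : LinearMap.ker ev' = (Md a (z 0)).comap (Sd K n a).subtype := by
      ext G
      constructor
      · intro h
        exact ⟨G.2, h⟩
      · intro h
        exact h.2
    have hMd : Md a (z 0) ≤ Sd K n a := fun G hG => hG.1
    have e := LinearMap.finrank_range_add_finrank_ker ev'
    rw [hsurj, hk, finrank_top, Module.finrank_self,
      (Submodule.comapSubtypeEquivOfLe hMd).finrank_eq] at e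
    omega
  · intro G hG
    obtain ⟨hG1, hG2⟩ := (mem_Iz z G).1 hG
    refine (mem_Md (z 0) G).2 ⟨hG1, ?_⟩
    rw [← coeff_zero_resC, hG2, Polynomial.coeff_zero]

end Pool.Agent.H48.EE
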